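import Pool.Agent.L0h37.KM.PZAll

set_option autoImplicit false

/-!
# Second moments at almost all tuples of points at distances between a power of `log T` and `T^(1/4)`
-/

namespace Pool.Agent.L0h37.Spare.MesoscopicClusters

open Complex Filter Topology MeasureTheory Set

noncomputable section

/-- The regular points: the fourth moment of zeta over `[t,t+U]` is at most `U V`. -/
def regular (U V : ℝ) : Set ℝ := {t | ∫ u in t..(t + U), ‖riemannZeta (1 / 2 + I * u)‖ ^ 4 ≤ U * V}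

/-- The moment `∫ |ζ(1/2+it)|^2 ∏_j |ζ(1/2+i(t+c_j))|^2 dt` over the regular points `t ∈ [0,T]`. -/
def moment {n : ℕ} (T U V : ℝ) (c : Fin n → ℝ) : ℝ :=
  ∫ t in regular U V ∩ Icc 0 T, ‖riemannZeta (1 / 2 + I * t)‖ ^ 2 *
    ∏ j, ‖riemannZeta (1 / 2 + I * (t + c j))‖ ^ 2

/-- The local density at the prime `p`: `(1-1/p)^(n+1)` times the mean over the rotations of the `p`-factor of
`|ζ(1/2)|^2 ∏_j |ζ(1/2+ic_j)|^2`. -/
def localDensity {n : ℕ} (c : Fin n → ℝ) (p : ℕ) : ℝ :=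
  (1 - 1 / (p : ℝ)) ^ (n + 1) * ∫ θ in (0:ℝ)..1,
    1 / (‖1 - cexp (2 * Real.pi * I * θ) * (p : ℂ) ^ (-(1 / 2) : ℂ)‖ ^ 2 *
      ∏ j, ‖1 - cexp (2 * Real.pi * I * θ) * (p : ℂ) ^ (-(1 / 2 + I * c j))‖ ^ 2)

/-- The zeta factor `∏_j |ζ(1+ic_j)|^2 ∏_{i<j} |ζ(1+i(c_i-c_j))|^2`. -/
def zetaFactor {n : ℕ} (c : Fin n → ℝ) : ℝ :=
  (∏ j, ‖riemannZeta (1 + I * c j)‖ ^ 2) *
    ∏ i, ∏ j ∈ Finset.Ioi i, ‖riemannZeta (1 + I * (c i - c j))‖ ^ 2

/-- The inverse of the Euler factor at `p` of `zetaFactor`. -/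
def eulerInverse {n : ℕ} (c : Fin n → ℝ) (p : ℕ) : ℝ :=
  (∏ j, ‖1 - (p : ℂ) ^ (-(1 + I * c j))‖ ^ 2) *
    ∏ i, ∏ j ∈ Finset.Ioi i, ‖1 - (p : ℂ) ^ (-(1 + I * (c i - c j)))‖ ^ 2

/-- The arithmetic factor, an absolutely convergent product over all primes. -/
def arithmeticFactor {n : ℕ} (c : Fin n → ℝ) : ℝ := ∏' p : Nat.Primes, localDensity c p * eulerInverse c p

/-- For all `n`, `B` there are `C₀`, `B₀` such that for every `ε > 0`, all large `T` and all `U` with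
`(log T)^C₀ ≤ U ≤ T^(1/4)`: the points of `[0,T]` which are not regular (bound `(log T)^B₀` for the mean fourth power over
`[t,t+U]`) have measure at most `T/(log T)^B`, and for all `c ∈ [0,U]^n` outside a set of measure at most `ε U^n` the moment
over the regular points is within the relative error `ε` of `arithmeticFactor c * zetaFactor c * T (log T)^(n+1)`. -/
theorem result (n B : ℕ) :
    (∃ C : ℝ, ∀ c : Fin n → ℝ, ∀ p : ℕ, p.Prime → |localDensity c p * eulerInverse c p - 1| ≤ C / (p : ℝ) ^ 2) ∧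
    ∃ C₀ B₀ : ℕ, ∀ ε : ℝ, 0 < ε → ∃ T₀ : ℝ, ∀ T : ℝ, T₀ ≤ T → ∀ U : ℝ,
      Real.log T ^ C₀ ≤ U → U ≤ T ^ (1 / 4 : ℝ) →
      volume (Icc 0 T \ regular U (Real.log T ^ B₀)) ≤ ENNReal.ofReal (T / Real.log T ^ B) ∧
      volume {c : Fin n → ℝ | (∀ j, c j ∈ Icc 0 U) ∧
        ¬ |moment T U (Real.log T ^ B₀) c / (arithmeticFactor c * zetaFactor c * (T * Real.log T ^ (n + 1))) - 1| ≤ ε} ≤
          ENNReal.ofReal (ε * U ^ n) := by
  refine ⟨?_, ?_⟩
  · obtain ⟨C, _, hC⟩ := Pool.Agent.L0h37.KM.k_AA1 n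
    exact ⟨C, fun c p hp => ((hC c).1 p hp).2⟩
  · obtain ⟨C₀, B₀, h⟩ := Pool.Agent.L0h37.KM.pz_main n B
    refine ⟨C₀, B₀, fun ε hε => ?_⟩
    obtain ⟨T₀, hT₀⟩ := eventually_atTop.1 (h ε hε)
    refine ⟨T₀, fun T hT U hU hU2 => ?_⟩
    obtain ⟨h1, h2⟩ := hT₀ T hT U hU hU2
    have eG : ∀ V : ℝ, regular U V = Pool.Agent.N879.PZ.Gs U V := by
      intro V
      ext t
      unfold regular Pool.Agent.N879.PZ.Gs
      simp only [Set.mem_ofPred_eq]
      have e : ∫ u in t..(t + U), ‖riemannZeta (1 / 2 + I * u)‖ ^ 4 =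
          ∫ u in t..(t + U), Pool.Agent.Y969.GP.ff u ^ 2 := by
        refine intervalIntegral.integral_congr fun u _ => ?_
        unfold Pool.Agent.Y969.GP.ff
        ring
      rw [e]
    have eM : ∀ c : Fin n → ℝ, Pool.Agent.N879.PZ.MG T U (Real.log T ^ B₀) c = moment T U (Real.log T ^ B₀) c := by
      intro c
      unfold Pool.Agent.N879.PZ.MG moment
      rw [eG]
      refine integral_congr_ae (Eventually.of_forall fun t => ?_)
      simp only
      unfold Pool.Agent.Y969.GP.ff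
      push_cast
      rfl
    refine ⟨?_, ?_⟩
    · rw [eG]
      exact h1
    · have e1 : ∀ c : Fin n → ℝ, Pool.Agent.N879.PZ.zp1 c * Pool.Agent.N879.PZ.AA1 c =
          arithmeticFactor c * zetaFactor c := fun c => mul_comm _ _
      simp only [eM, e1] at h2
      simpa only [Set.mem_Icc] using h2

end

end Pool.Agent.L0h37.Spare.MesoscopicClusters
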